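import Pool.Agent.Lib_helper22.HtTwo.Defs

/-!
# Counting the spanning subgraphs by means of realizers
-/

set_option autoImplicit false

namespace Pool.Agent.Lib_helper22.HtTwo

open Finset Function

/-- Two injective height functions with the same out-degree sequence orient the
edges of a graph in the same way. -/
theorem score_det {V : Type*} [Finite V] (adj : V → V → Prop)
    (hsymm : ∀ x y, adj x y → adj y x) (hirr : ∀ x, ¬ adj x x) (f g : V → ℕ)
    (hf : Injective f) (hg : Injective g)
    (h : ∀ v, Set.ncard {u | adj v u ∧ f v < f u} = Set.ncard {u | adj v u ∧ g v < g u}) :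
    ∀ u v, adj u v → (f u < f v ↔ g u < g v) := by
  classical
  have := Fintype.ofFinite V
  by_contra hcon
  simp only [not_forall] at hcon
  obtain ⟨u₀, v₀, hadj, hne⟩ := hcon
  let D : V → Prop := fun x => ∃ y, adj x y ∧ ¬ (f x < f y ↔ g x < g y)
  have hD : D u₀ := ⟨v₀, hadj, hne⟩
  have hdisymm : ∀ x y, adj x y → ¬ (f x < f y ↔ g x < g y) → ¬ (f y < f x ↔ g y < g x) := by
    intro x y hxy hn
    have hxy' : x ≠ y := fun h => hirr x (h ▸ hxy)
    have h1 : f x ≠ f y := fun h => hxy' (hf h)
    have h2 : g x ≠ g y := fun h => hxy' (hg h)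
    rcases lt_or_gt_of_ne h1 with h1 | h1 <;> rcases lt_or_gt_of_ne h2 with h2 | h2
    · exact absurd (iff_of_true h1 h2) hn
    · intro hh; exact absurd (hh.2 h2) (not_lt.2 h1.le)
    · intro hh; exact absurd (hh.1 h1) (not_lt.2 h2.le)
    · exact absurd (iff_of_false (not_lt.2 h1.le) (not_lt.2 h2.le)) hn
  have hne' : (univ.filter D).Nonempty := ⟨u₀, by simp [hD]⟩
  obtain ⟨x, hx, hmax⟩ := exists_max_image (univ.filter D) f hne'
  have hDx : D x := by simpa using hx
  have key : ∀ y, adj x y → ¬ (f x < f y ↔ g x < g y) → f y < f x ∧ g x < g y := by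
    intro y hxy hn
    have hxy' : x ≠ y := fun h => hirr x (h ▸ hxy)
    have hDy : D y := ⟨x, hsymm _ _ hxy, hdisymm x y hxy hn⟩
    have h1 : f y ≤ f x := hmax y (by simp [hDy])
    have h2 : f y ≠ f x := fun h => hxy' (hf h).symm
    have h3 : f y < f x := lt_of_le_of_ne h1 h2
    refine ⟨h3, ?_⟩
    by_contra h4
    exact hn (iff_of_false (not_lt.2 h3.le) h4)
  obtain ⟨y, hxy, hn⟩ := hDx
  obtain ⟨h3, h4⟩ := key y hxy hn
  have hss : {u | adj x u ∧ f x < f u} ⊂ {u | adj x u ∧ g x < g u} := by
    constructor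
    · rintro z ⟨hz1, hz2⟩
      refine ⟨hz1, ?_⟩
      by_contra h5
      have := key z hz1 (by tauto)
      omega
    · intro hsub
      have := (hsub (show y ∈ {u | adj x u ∧ g x < g u} from ⟨hxy, h4⟩)).2
      omega
  have := Set.ncard_lt_ncard hss (Set.toFinite _)
  rw [h x] at this
  exact lt_irrefl _ this

/-- A linear order on a finite set is given by an injective function. -/
theorem exists_rank {V : Type} [Finite V] (L : LinearOrder V) :
    ∃ f : V → ℕ, Injective f ∧ ∀ x y, L.le x y ↔ f x ≤ f y := by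
  have hlt : ∀ x y : V, x < y → Set.ncard {z : V | z < x} < Set.ncard {z : V | z < y} := fun x y hxy =>
    Set.ncard_lt_ncard ⟨fun z hz => lt_trans hz hxy, fun h => lt_irrefl x (h hxy)⟩
      (Set.toFinite _)
  refine ⟨fun x => Set.ncard {z : V | z < x}, fun x y hxy => ?_, fun x y => ⟨fun h => ?_, fun h => ?_⟩⟩
  · rcases lt_trichotomy x y with h | h | h
    · exact absurd hxy (hlt _ _ h).ne
    · exact h
    · exact absurd hxy (hlt _ _ h).ne'
  · rcases eq_or_lt_of_le h with h | h
    · rw [h]
    · exact (hlt _ _ h).le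
  · by_contra hc
    exact absurd (hlt _ _ (not_le.1 hc)) (not_lt.2 h)

/-- A realizer with exactly `d` linear orders, given by injective functions. -/
theorem exists_ranks {V : Type} [Finite V] {r : V → V → Prop}
    (ha : ∀ x y, r x y → r y x → x = y) {d : ℕ} (h : DimLE r d) :
    ∃ f : Fin d → V → ℕ, (∀ i, Injective (f i)) ∧ ∀ x y, r x y ↔ ∀ i, f i x ≤ f i y := by
  obtain ⟨k, hk, L, hL⟩ := h
  choose g hg hg' using fun i => exists_rank (L i)
  have hL' : ∀ x y, r x y ↔ ∀ i, g i x ≤ g i y := fun x y => by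
    rw [hL]
    exact forall_congr' fun i => hg' i x y
  rcases Nat.eq_zero_or_pos k with rfl | hk0
  · have hall : ∀ x y, r x y := fun x y => (hL' x y).2 fun i => i.elim0
    have hsub : ∀ x y : V, x = y := fun x y => ha x y (hall x y) (hall y x)
    exact ⟨fun _ _ => 0, fun _ x y _ => hsub x y, fun x y => ⟨fun _ _ => le_rfl, fun _ => hall x y⟩⟩
  · refine ⟨fun i => g ⟨min i (k - 1), by omega⟩, fun i => hg _, fun x y => ?_⟩
    rw [hL']
    refine ⟨fun h i => h _, fun h i => ?_⟩
    have h1 := h ⟨i, by omega⟩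
    have h2 : (⟨min i (k - 1), by omega⟩ : Fin k) = i := Fin.ext (by
      change min (i : ℕ) (k - 1) = i
      omega)
    simp only [h2] at h1
    exact h1

/-- The number of the spanning subgraphs is at most `∏ (deg + 1) ^ d`. -/
theorem count {V : Type} [Fintype V] (G : SimpleGraph V) [DecidableRel G.Adj] (d : ℕ)
    (H : ∀ H : SimpleGraph V, H ≤ G → ∃ A : Set V, IsSide H A ∧ DimLE (PosetLE H A) d) :
    2 ^ G.edgeFinset.card ≤ (∏ x, (G.degree x + 1)) ^ d := by
  classical
  have H' : ∀ F : Finset (Sym2 V), ∃ f : Fin d → V → ℕ, F ⊆ G.edgeFinset →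
      (∀ i, Injective (f i)) ∧
        ∀ x y, G.Adj x y → (s(x, y) ∈ F ↔ (∀ i, f i x < f i y) ∨ ∀ i, f i y < f i x) := by
    intro F
    by_cases hF : F ⊆ G.edgeFinset
    · have hle : SimpleGraph.fromEdgeSet (F : Set (Sym2 V)) ≤ G := by
        intro x y hxy
        rw [SimpleGraph.fromEdgeSet_adj] at hxy
        have h1 := hF hxy.1
        rwa [SimpleGraph.mem_edgeFinset, SimpleGraph.mem_edgeSet] at h1
      obtain ⟨A, hA, hdim⟩ := H _ hle
      have ha : ∀ x y, PosetLE (SimpleGraph.fromEdgeSet (F : Set (Sym2 V))) A x y →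
          PosetLE (SimpleGraph.fromEdgeSet (F : Set (Sym2 V))) A y x → x = y := by
        rintro x y (h1 | ⟨h1, h2⟩) (h3 | ⟨h3, h4⟩)
        · exact h1
        · exact h1
        · exact h3.symm
        · exact absurd h3 ((hA x y h2).1 h1)
      obtain ⟨f, hf, hf'⟩ := exists_ranks ha hdim
      refine ⟨f, fun _ => ⟨hf, fun x y hxy => ?_⟩⟩
      have hne : x ≠ y := hxy.ne
      have hlt : ∀ x y, x ≠ y → ((∀ i, f i x < f i y) ↔
          PosetLE (SimpleGraph.fromEdgeSet (F : Set (Sym2 V))) A x y) := by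
        intro x y hne
        rw [hf']
        exact forall_congr' fun i =>
          ⟨fun h => h.le, fun h => lt_of_le_of_ne h fun h' => hne (hf i h')⟩
      rw [hlt x y hne, hlt y x hne.symm]
      constructor
      · intro h
        have hadj : (SimpleGraph.fromEdgeSet (F : Set (Sym2 V))).Adj x y := by
          rw [SimpleGraph.fromEdgeSet_adj]
          exact ⟨h, hne⟩
        by_cases hx : x ∈ A
        · exact Or.inl (Or.inr ⟨hx, hadj⟩)
        · refine Or.inr (Or.inr ⟨?_, hadj.symm⟩)
          by_contra hy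
          exact hx ((hA x y hadj).2 hy)
      · rintro ((h | ⟨-, h⟩) | (h | ⟨-, h⟩))
        · exact absurd h hne
        · rw [SimpleGraph.fromEdgeSet_adj] at h
          exact h.1
        · exact absurd h hne.symm
        · have h' := h.symm
          rw [SimpleGraph.fromEdgeSet_adj] at h'
          exact h'.1
    · exact ⟨fun _ _ => 0, fun h => absurd h hF⟩
  choose f hf using H'
  let code : Finset (Sym2 V) → (Fin d → (x : V) → Fin (G.degree x + 1)) :=
    fun F i x => ⟨Set.ncard {u | G.Adj x u ∧ f F i x < f F i u}, by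
      refine Nat.lt_succ_of_le ?_
      have h1 : G.degree x = Set.ncard {u | G.Adj x u} := by
        rw [← SimpleGraph.card_neighborFinset_eq_degree, ← Set.ncard_coe_finset]
        congr 1
        ext u
        simp
      rw [h1]
      exact Set.ncard_le_ncard (fun u hu => hu.1) (Set.toFinite _)⟩
  have hinj : Set.InjOn code (G.edgeFinset.powerset : Set (Finset (Sym2 V))) := by
    intro F hF F' hF' hFG
    have hFs : F ⊆ G.edgeFinset := Finset.mem_powerset.1 (Finset.mem_coe.1 hF)
    have hFs' : F' ⊆ G.edgeFinset := Finset.mem_powerset.1 (Finset.mem_coe.1 hF')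
    obtain ⟨fi, fp⟩ := hf F hFs
    obtain ⟨gi, gp⟩ := hf F' hFs'
    have hsc : ∀ i, ∀ u v, G.Adj u v → (f F i u < f F i v ↔ f F' i u < f F' i v) := by
      intro i
      refine score_det G.Adj (fun x y h => h.symm) (fun x h => h.ne rfl) (f F i) (f F' i)
        (fi i) (gi i) ?_
      intro v
      exact congrArg Fin.val (congrFun (congrFun hFG i) v)
    have hiff : ∀ x y, G.Adj x y → (s(x, y) ∈ F ↔ s(x, y) ∈ F') := by
      intro x y hxy
      rw [fp x y hxy, gp x y hxy]
      exact or_congr (forall_congr' fun i => hsc i x y hxy)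
        (forall_congr' fun i => hsc i y x hxy.symm)
    ext e
    induction e using Sym2.ind with
    | h x y =>
      constructor
      · intro h
        have h1 := hFs h
        rw [SimpleGraph.mem_edgeFinset, SimpleGraph.mem_edgeSet] at h1
        exact (hiff x y h1).1 h
      · intro h
        have h1 := hFs' h
        rw [SimpleGraph.mem_edgeFinset, SimpleGraph.mem_edgeSet] at h1
        exact (hiff x y h1).2 h
  have hc := Finset.card_le_card_of_injOn (t := univ) code
    (fun _ _ => Finset.mem_coe.2 (mem_univ _)) hinj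
  rw [card_powerset, card_univ] at hc
  refine hc.trans (le_of_eq ?_)
  simp

/-- The analytic part: if `2 ^ E ≤ (∏ (deg + 1)) ^ d` and `∑ deg = 2 E` then the average degree is
at most `6 d log₂ (d + 1)`. -/
theorem bound {V : Type} [Fintype V] [Nonempty V] (deg : V → ℕ) (E d : ℕ)
    (h : 2 ^ E ≤ (∏ x, (deg x + 1)) ^ d) (hE : ∑ x, deg x = 2 * E) :
    2 * (E : ℝ) / (Fintype.card V : ℝ) ≤ 6 * d * Real.logb 2 (d + 1) := by
  have hn : (0 : ℝ) < Fintype.card V := by exact_mod_cast Fintype.card_pos
  set n : ℝ := (Fintype.card V : ℝ) with hnd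
  set D : ℝ := 2 * (E : ℝ) / n with hD
  have hD0 : 0 ≤ D := by positivity
  have hl2 : 0 < Real.log 2 := Real.log_pos (by norm_num)
  -- the logarithm of the product
  have h1 : (E : ℝ) * Real.log 2 ≤ d * ∑ x, Real.log (deg x + 1) := by
    have h2 : ((2 : ℝ) ^ E) ≤ (∏ x, ((deg x : ℝ) + 1)) ^ d := by exact_mod_cast h
    have h3 := Real.log_le_log (by positivity) h2
    rw [Real.log_pow, Real.log_pow, Real.log_prod (fun x _ => by positivity)] at h3
    exact h3
  have h2 : ∑ x, Real.log ((deg x : ℝ) + 1) ≤ n * Real.log (D + 1) := by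
    have h3 : ∀ x, Real.log ((deg x : ℝ) + 1) ≤
        Real.log (D + 1) + (((deg x : ℝ) + 1) / (D + 1) - 1) := by
      intro x
      have h4 : 0 < ((deg x : ℝ) + 1) / (D + 1) := by positivity
      have h5 := Real.log_le_sub_one_of_pos h4
      rw [Real.log_div (by positivity) (by positivity)] at h5
      linarith
    have h4 := Finset.sum_le_sum fun x (_ : x ∈ (univ : Finset V)) => h3 x
    refine h4.trans (le_of_eq ?_)
    rw [Finset.sum_add_distrib, Finset.sum_const, Finset.sum_sub_distrib, ← Finset.sum_div,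
      Finset.sum_add_distrib]
    have h5 : (∑ x, (deg x : ℝ)) = n * D := by
      have h6 : (∑ x, (deg x : ℝ)) = 2 * (E : ℝ) := by exact_mod_cast hE
      rw [h6, hD]
      field_simp
    rw [h5]
    simp only [Finset.sum_const, Finset.card_univ, nsmul_eq_mul, ← hnd]
    field_simp
    ring
  have h3 : D * Real.log 2 ≤ 2 * d * Real.log (D + 1) := by
    have h4 : (E : ℝ) = n * D / 2 := by
      rw [hD]
      field_simp
    have h5 : (E : ℝ) * Real.log 2 ≤ d * (n * Real.log (D + 1)) :=
      h1.trans (mul_le_mul_of_nonneg_left h2 (by positivity))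
    rw [h4] at h5
    have h6 : n * (D * Real.log 2) ≤ n * (2 * d * Real.log (D + 1)) := by nlinarith
    exact le_of_mul_le_mul_left h6 hn
  rcases Nat.eq_zero_or_pos d with hd | hd
  · rw [hd] at h3 ⊢
    simp only [CharP.cast_eq_zero, mul_zero, zero_mul] at h3 ⊢
    by_contra hc
    exact absurd (mul_pos (not_le.1 hc) hl2) (not_lt.2 h3)
  -- the bound
  have hd1 : (1 : ℝ) ≤ d := by exact_mod_cast hd
  set ell : ℝ := Real.logb 2 (d + 1) with hell
  have hell1 : 1 ≤ ell := by
    rw [hell, Real.le_logb_iff_rpow_le (by norm_num) (by positivity), Real.rpow_one]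
    linarith
  have hell2 : ell ≤ d := by
    rw [hell, Real.logb_le_iff_le_rpow (by norm_num) (by positivity), Real.rpow_natCast]
    have h4 : d + 1 ≤ 2 ^ d := Nat.lt_two_pow_self
    exact_mod_cast h4
  set D0 : ℝ := 6 * d * ell with hD0d
  have hD0pos : 6 * d ≤ D0 := by
    rw [hD0d]
    nlinarith
  have h4 : 2 * d * Real.log (D0 + 1) ≤ D0 * Real.log 2 := by
    have h5 : D0 + 1 ≤ ((d : ℝ) + 1) ^ 3 := by
      rw [hD0d]
      have h6 : 6 * (d : ℝ) * ell ≤ 6 * d * d := mul_le_mul_of_nonneg_left hell2 (by positivity)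
      nlinarith [sq_nonneg ((d : ℝ) - 3 / 2), mul_nonneg (by linarith : (0 : ℝ) ≤ d)
        (sq_nonneg ((d : ℝ) - 3 / 2))]
    have h6 : Real.log (D0 + 1) ≤ 3 * Real.log (d + 1) := by
      have h7 := Real.log_le_log (by positivity) h5
      rw [Real.log_pow] at h7
      exact_mod_cast h7
    have h7 : Real.log ((d : ℝ) + 1) = ell * Real.log 2 := by
      rw [hell, Real.logb, div_mul_cancel₀ _ hl2.ne']
    rw [h7] at h6
    calc 2 * d * Real.log (D0 + 1) ≤ 2 * d * (3 * (ell * Real.log 2)) :=
          mul_le_mul_of_nonneg_left h6 (by positivity)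
      _ = D0 * Real.log 2 := by rw [hD0d]; ring
  by_contra hc
  have hc' : D0 < D := not_le.1 hc
  -- the slope
  have h5 : Real.log (D + 1) ≤ Real.log (D0 + 1) + (D - D0) / (D0 + 1) := by
    have h6 : 0 < (D + 1) / (D0 + 1) := by positivity
    have h7 := Real.log_le_sub_one_of_pos h6
    rw [Real.log_div (by positivity) (by positivity)] at h7
    have h8 : (D + 1) / (D0 + 1) - 1 = (D - D0) / (D0 + 1) := by
      have h9 : D0 + 1 ≠ 0 := by positivity
      rw [div_sub_one h9]
      congr 1
      ring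
    linarith
  have h6 : 2 * d * ((D - D0) / (D0 + 1)) ≤ (D - D0) / 3 := by
    have h7 : 0 < D0 + 1 := by positivity
    rw [mul_div_assoc', div_le_div_iff₀ h7 (by norm_num)]
    nlinarith
  have h7 : (0.69 : ℝ) < Real.log 2 := by
    have := Real.log_two_gt_d9
    linarith
  have h8 : 2 * d * Real.log (D + 1) ≤
      2 * d * Real.log (D0 + 1) + 2 * d * ((D - D0) / (D0 + 1)) := by
    rw [← mul_add]
    exact mul_le_mul_of_nonneg_left h5 (by positivity)
  nlinarith

end Pool.Agent.Lib_helper22.HtTwo
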