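import Mathlib

/-!
# Posets of height two associated with bipartite graphs
-/

set_option autoImplicit false

namespace Pool.Agent.Lib_helper22.HtTwo

/-- `A` and its complement are the sides of a bipartition of the graph. -/
def IsSide {V : Type} (G : SimpleGraph V) (A : Set V) : Prop :=
  ∀ x y, G.Adj x y → (x ∈ A ↔ y ∉ A)

/-- The order of the poset associated with the bipartite graph `G` and its side `A`: `x ≤ y` if and
only if `x = y`, or `x` and `y` are adjacent and `x` is in `A`. -/
def PosetLE {V : Type} (G : SimpleGraph V) (A : Set V) (x y : V) : Prop :=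
  x = y ∨ x ∈ A ∧ G.Adj x y

/-- The order `r` has (Dushnik-Miller) dimension at most `d`: it is the intersection of `k` linear
orders for some `k ≤ d`. -/
def DimLE {V : Type} (r : V → V → Prop) (d : ℕ) : Prop :=
  ∃ k ≤ d, ∃ L : Fin k → LinearOrder V, ∀ x y, r x y ↔ ∀ i, (L i).le x y

/-- The average degree of a finite graph. -/
noncomputable def avgDeg {V : Type} (G : SimpleGraph V) : ℝ :=
  2 * (G.edgeSet.ncard : ℝ) / (Nat.card V : ℝ)

/-- A class of finite graphs which is closed under isomorphisms and under taking subgraphs: if `G`
is in the class and `H` is isomorphic to a subgraph of `G` then `H` is in the class. -/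
def IsMonotone (C : ∀ V : Type, SimpleGraph V → Prop) : Prop :=
  ∀ (V W : Type) [Finite V] [Finite W] (G : SimpleGraph V) (H : SimpleGraph W), C V G →
    H.IsContained G → C W H

end Pool.Agent.Lib_helper22.HtTwo
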